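import Pool.Agent.X325.OB.IsoC

/-!
# Nonvanishing for isotrivial fibrations over towers over subvarieties of projective space

Let `X` be a projective manifold (or a projective variety with canonical singularities) and

  `X ⇢ W_l ⇢ ... ⇢ W_1 ⇢ W_0 ⊂ P^v`, `l ≥ 0`,

dominant rational maps, where `W_0` is any subvariety of `P^v`, of dimension `D 0`. Suppose:

* (the base) `ℓ i = 0`, `i < q`, are hyperplanes in general position which do not contain `W_0`,
  such that the points `ℓ i` impose independent conditions on the forms of degree `d`, with weights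
  `wt i ≥ 0` whose sum is at least `(D 0 + 1) γ`, `γ = (v - D 0 + d).choose (v - D 0)`; if `μ i` are
  the multiplicities of the hyperplanes `ℓ i = 0` at a prime divisor `P` of `X` (for the divisors
  without fixed component which the map defines), not all zero, then `min (#{i | μ i ≠ 0}) γ ≤ ∑ i,
  (1 - wt i) μ i`. In the *borderline case*, when the sum of the weights is equal to `(D 0 + 1) γ`,
  the inequality is strict if the multiplicity `μ k0` of one distinguished hyperplane is positive
  (this is needed for the second statement only). (If `W_0 = P^{D 0}` then `γ = 1`, and the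
  borderline case is the one in which the orbifold base is of log Calabi-Yau type);
* (the steps of the tower) for each `i < l` one of the following:
  * (orbifold) the fibres of `W_{i+1}` over `W_i`, *with the multiplicities of the fibres of `X`
    over `W_{i+1}`*, correspond to moving log canonical arrangements, of log Kodaira dimension `lam
    i ≥ 0` (`OrbifoldFibres`);
  * (constant) the fibres of `W_{i+1}` over `W_i`, with the multiplicities of the fibres of `X` over
    `W_{i+1}`, correspond to one orbifold `(V_i, a_i)` of Kodaira dimension at least `lam i ≥ 0`: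
    there are a variety `X'` with a generically finite map `X' ⇢ X` and a rational map `X' ⇢ V_i`
    which is constant on the fibres of `X' ⇢ W_{i+1}` and dominant on the fibres of `X' ⇢ W_i`; `a_i
    (p)` is a nonnegative function (the log discrepancy) of places of `V_i`, and at the places `Q`
    over `P` (with ramification index `ε`) which lie over `p` (with ramification index `ν`) one has
    `ε ≤ ν a_i (p)` (`ConstantFibres`). For instance `V_i` is a smooth projective variety, `a_i =
    1`, and the fibres of `W_{i+1}` over `W_i` are birational to `V_i`;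
* (the fibres of `X` over `W_l`) after a generically finite base change `X'` of `X` the fibres
  dominate, or are birational to, a fixed smooth projective variety `F`.

Then `κ(X) ≥ ∑ i, lam i + κ(F)`, and `κ(X) ≥ dim W_0 + ∑ i, lam i + κ(F)` if the sum of the `wt i` is
greater than `(D 0 + 1) γ`, or in the borderline case with the strict inequalities. If the fibres are
birational to `F` (after a base change), and `F` is uniruled or has `κ(F) ≥ 0`, then the following are
equivalent: `κ(X) = -∞`; `K_X` is not pseudo-effective; `X` is uniruled; `κ(F) = -∞`; `K_F` is not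
pseudo-effective; `F` is uniruled. So `K_X` is pseudo-effective if and only if it is `ℚ`-effective:
nonvanishing for `F` (in the form: `F` is uniruled or `κ(F) ≥ 0`; known for `dim F ≤ 3`) implies
nonvanishing for `X`, of any dimension.

`KodGe ℂ K w (fun _ => False) κ`: the Kodaira dimension is at least `κ`; `Psef`: the canonical
divisor is pseudo-effective (`Pool/Agent/W602/GT`); `IsUniruled`: `Pool/Agent/W619/PQ/Defs.lean`. The
other definitions are those of `Pool/Agent/X180/OP/CanDefs`, `X180/OD/Defs` and
`Pool/Agent/Y191/LcForm`, `LcLow`.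
-/

set_option autoImplicit false

open FF Pool.Agent.W602.GT Pool.Agent.Y172 Pool.Agent.Y191
open Pool.Agent.W619.PQ (IsUniruled)
open Pool.Agent.X180.OP (IsCanonicalVariety)
open Pool.Agent.X180.OD (IsTower)

namespace Pool.Agent.Results.MP_813db1_ag.IsotrivialNonvanishing

/-- The function field of the image of the rational map with the coordinates `b j`. -/
noncomputable def ImageField {K : Type} [Field K] [Algebra ℂ K] {v : ℕ} (b : Fin (v + 1) → K) :
    IntermediateField ℂ K :=
  IntermediateField.adjoin ℂ {f : K | ∃ i j, b j ≠ 0 ∧ f = b i / b j}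

/-- The `b j` are the coordinates of a rational map whose image has dimension `p` and is not
contained in one of the hyperplanes `ℓ i = 0`. -/
def IsMap {K : Type} [Field K] [Algebra ℂ K] {v q : ℕ} (ℓ : Fin q → Fin (v + 1) → ℂ)
    (b : Fin (v + 1) → K) (p : ℕ) : Prop :=
  (∀ i, ∑ j, algebraMap ℂ K (ℓ i j) * b j ≠ 0) ∧ (∃ j, b j ≠ 0) ∧
    Algebra.trdeg ℂ (ImageField b) = p

/-- The multiplicities over the base, at the prime divisors `P` of `X`: if the hyperplanes `ℓ i = 0`
have the multiplicities `μ i` at `P`, not all zero, then `min (#{i | μ i ≠ 0}) γ ≤ ∑ i, (1 - wt i) μ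
i`. -/
def Multiplicities {K : Type} [Field K] [Algebra ℂ K] {v q : ℕ} {N : ℕ} (y : Fin (N + 1) → K)
    (ℓ : Fin q → Fin (v + 1) → ℂ) (b : Fin (v + 1) → K) (wt : Fin q → ℚ) (γ : ℕ) : Prop :=
  ∀ P, IsPrimeDivisor y P → ∀ (a : ℤ) (μ : Fin q → ℕ),
    MOrd P (fun k j => algebraMap ℂ K (ℓ k j)) b a μ → μ ≠ 0 →
    ((min (Finset.univ.filter fun i => μ i ≠ 0).card γ : ℕ) : ℚ) ≤
      ∑ i, (1 - wt i) * μ i

/-- The inequality in `Multiplicities` is strict if the multiplicity of the distinguished hyperplane
`k0` is positive. -/
def Strict {K : Type} [Field K] [Algebra ℂ K] {v q : ℕ} {N : ℕ} (y : Fin (N + 1) → K)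
    (ℓ : Fin q → Fin (v + 1) → ℂ) (b : Fin (v + 1) → K) (wt : Fin q → ℚ) (γ : ℕ) (k0 : Fin q) :
    Prop :=
  ∀ P, IsPrimeDivisor y P → ∀ (a : ℤ) (μ : Fin q → ℕ),
    MOrd P (fun k j => algebraMap ℂ K (ℓ k j)) b a μ → μ k0 ≠ 0 →
    ((min (Finset.univ.filter fun i => μ i ≠ 0).card γ : ℕ) : ℚ) <
      ∑ i, (1 - wt i) * μ i

section

variable {K K' : Type} [Field K] [Field K'] [Algebra ℂ K] [Algebra ℂ K'] [Algebra K K']
  [IsScalarTower ℂ K K']

/-- `K'` is the function field of a component `X'` of the base change of `X` to a variety `W'` with a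
generically finite map to `W`, where `L` is the function field of `W`: it is generated over `K` by an
element `α` which is algebraic over `L`. -/
def BaseChange (L : IntermediateField ℂ K) (α : K') : Prop :=
  IsAlgebraic L α ∧ IntermediateField.adjoin K {α} = ⊤

/-- The fibres of `X' ⇢ W` dominate the variety `F` with the function field `M`: the elements of `K'`
are algebraic over the field which is generated by `M` and the elements which are algebraic over
`L`. For `dim F = dim X - dim W` this means that `X'` has a generically finite rational map to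
`W'' × F` over `W`, where `W''` has a generically finite map to `W`. -/
def Dominates (L : IntermediateField ℂ K) (M : IntermediateField ℂ K') : Prop :=
  ∀ z : K', IsAlgebraic (IntermediateField.adjoin ℂ ({a : K' | IsAlgebraic L a} ∪ M)) z

/-- `X'` is birational to `W'' × F`: the field `K'` is generated by `M` and the elements which are
algebraic over `L`. -/
def IsProduct (L : IntermediateField ℂ K) (M : IntermediateField ℂ K') : Prop :=
  IntermediateField.adjoin ℂ ({a : K' | IsAlgebraic L a} ∪ M) = ⊤

end

/-- Let `ℓ i = 0` be hyperplanes in `P^v` in general position which impose independent conditions on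
the forms of degree `d ≥ 1`. Let `X` be a projective variety with canonical singularities, with
function field `K`, `b` the coordinates of a rational map `X ⇢ P^v` whose image is the bottom `W_0`,
of dimension `D 0`, not contained in a hyperplane `ℓ i = 0`, of a tower `X ⇢ W_l ⇢ ... ⇢ W_0` whose
steps (orbifold fibrations or constant orbifolds) have the (log) Kodaira dimensions `lam i ≥ 0`; let
`f` be the relative dimension of `X ⇢ W_l`. Let `wt i ≥ 0` be weights whose sum is at least `(D 0 +
1) * γ`, where `γ = (v - D 0 + d).choose (v - D 0)`, and suppose that the condition `Multiplicities`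
holds. Let `X'` be a base change of `X` to a variety with a generically finite map to `W_l` and `F`
a smooth projective variety of dimension `f` with function field `M`.

**(1)** If the fibres of `X'` dominate `F` and `κ(F) ≥ h ≥ 0` then `κ(X) ≥ ∑ i, lam i + h`, and
`κ(X) ≥ D 0 + ∑ i, lam i + h` if moreover the sum of the `wt i` is greater than `(D 0 + 1) * γ`, or if
the inequalities are strict for one distinguished hyperplane (`Strict`).

**(2)** If `X'` is birational to a product with `F` and `F` is uniruled then `X` is uniruled.

**(3)** If `X'` is birational to a product with `F` and `F` is uniruled or has Kodaira dimension at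
least `0` then the following are equivalent: `κ(X) = -∞`; `K_X` is not pseudo-effective; `X` is
uniruled; `κ(F) = -∞`; `K_F` is not pseudo-effective; `F` is uniruled. -/
theorem result {v q d : ℕ} (hd : 0 < d) (ℓ : Fin q → Fin (v + 1) → ℂ) (hI : Independent d ℓ)
    (hg : GeneralPosition ℓ) (hq : v + 1 ≤ q)
    (K : Type) [Field K] [Algebra ℂ K] [Algebra.EssFiniteType ℂ K] (N l f : ℕ)
    (E : Fin (l + 1) → IntermediateField ℂ K) (D : Fin (l + 1) → ℕ) (e lam : Fin l → ℕ)
    (y : Fin (N + 1) → K) (hy : IsCanonicalVariety y (D (Fin.last l) + f))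
    (b : Fin (v + 1) → K) (hb : IsMap ℓ b (D 0)) (hE0 : E 0 = ImageField b)
    (wt : Fin q → ℚ) (hwt : ∀ i, 0 ≤ wt i)
    (hs : (((D 0 + 1) * (v - D 0 + d).choose (v - D 0) : ℕ) : ℚ) ≤ ∑ i, wt i)
    (hm : Multiplicities y ℓ b wt ((v - D 0 + d).choose (v - D 0)))
    (hT : IsTower {P | IsPrimeDivisor y P} (fun _ => 0) E D e lam)
    (K' : Type) [Field K'] [Algebra ℂ K'] [Algebra K K'] [IsScalarTower ℂ K K']
    (α : K') (hα : BaseChange (E (Fin.last l)) α)
    (M : IntermediateField ℂ K') [Algebra.EssFiniteType ℂ M] (hM : Algebra.trdeg ℂ M = f) :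
    (Dominates (E (Fin.last l)) M → ∀ h : ℕ, KodGe ℂ M f (fun _ => False) h →
      KodGe ℂ K (D (Fin.last l) + f) (fun _ => False) (∑ i, lam i + h) ∧
      ((((D 0 + 1) * (v - D 0 + d).choose (v - D 0) : ℕ) : ℚ) < ∑ i, wt i ∨
        (∃ k0, Strict y ℓ b wt ((v - D 0 + d).choose (v - D 0)) k0) →
        KodGe ℂ K (D (Fin.last l) + f) (fun _ => False) (D 0 + ∑ i, lam i + h))) ∧
    (IsProduct (E (Fin.last l)) M → IsUniruled ℂ M f → IsUniruled ℂ K (D (Fin.last l) + f)) ∧
    (IsProduct (E (Fin.last l)) M → IsUniruled ℂ M f ∨ KodGe ℂ M f (fun _ => False) 0 →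
      [¬ KodGe ℂ K (D (Fin.last l) + f) (fun _ => False) 0,
        ¬ Psef ℂ K (D (Fin.last l) + f) (fun _ => False),
        IsUniruled ℂ K (D (Fin.last l) + f), ¬ KodGe ℂ M f (fun _ => False) 0,
        ¬ Psef ℂ M f (fun _ => False), IsUniruled ℂ M f].TFAE) := by
  have hb' := Pool.Agent.X325.OB.small_hbase hd hI hg hq hy hb.1 hb.2.1 hE0 hwt hs
    (fun P hP a μ ho hμ => hm P hP a μ (Pool.Agent.X325.OB.mord_ord ho) hμ) hT
  have h1 := Pool.Agent.X325.OB.iso_all (k := 0) hy hT (fun lam' h0 => by
    rw [zero_add]
    exact (hb' lam' h0).1) hα.1 hα.2 M hM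
  refine ⟨fun hdom h hk => ⟨?_, fun h' => ?_⟩, h1.2⟩
  · have h2 := h1.1 hdom h hk
    rwa [zero_add] at h2
  · refine (Pool.Agent.X325.OB.iso_all (k := D 0) hy hT (fun lam' h0 => ?_) hα.1 hα.2 M hM).1
      hdom h hk
    obtain ⟨j, -⟩ := hb.2.1
    rcases h' with h' | ⟨k0, h'⟩
    · exact (hb' lam' h0).2 ⟨0, by omega⟩ fun heq => absurd heq h'.ne
    · exact (hb' lam' h0).2 k0 fun _ P hP a μ ho hμ =>
        h' P hP a μ (Pool.Agent.X325.OB.mord_ord ho) hμ

end Pool.Agent.Results.MP_813db1_ag.IsotrivialNonvanishing
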