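import Pool.Agent.X180.OT.MultiNon

/-!
# Nonvanishing for orbifold towers over products of projective spaces with arbitrary arrangements

For `i < m` let `ℓ i k = 0`, `k < q i`, be hyperplanes in projective `n i`-space, an arbitrary
arrangement which is not reducible. Let `X` be a projective variety with canonical singularities (for
instance a smooth projective variety) and

  `X ⇢ W_l ⇢ ... ⇢ W_1 ⇢ W_0 = P^{n_1} × ... × P^{n_m}`, `l ≥ 0`,

dominant rational maps. Suppose:

* (the base) if `v i k` are the multiplicities of the hyperplanes at a prime divisor `P` of `X`, not
  all zero, then `∑ i, v i (k i) / d i ≥ 1` for some choice of hyperplanes `k i`, one for each factor.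
  Here `d i` is `n i + 2`, or only `n i + 1` if the arrangement in the factor does not consist of
  `n i + 2` hyperplanes in general position. So the multiplicities in the different factors are added,
  and the base may be an orbifold of Kodaira dimension `0`;
* (the steps of the tower, of any log Kodaira dimension `≥ 0`) for each `i < l` the fibres of
  `W_{i+1}` over `W_i`, *with the multiplicities of the fibres of `X` over `W_{i+1}`*, correspond to
  moving log canonical arrangements: there is a variety `X'` with a generically finite map `X' ⇢ X`
  (ramified anywhere) and a rational map over `W_i` of `X'` to a relative product of projective spaces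
  `P^{r_1} × ... × P^{r_c}`, `r_j ≥ 1`, whose fibres are, up to finite maps, the fibres of
  `X' ⇢ W_{i+1}`; in each `P^{r_j}` there are any hyperplanes `A j k = 0`, in any position, which move
  with the point of a variety finite over `W_i`, with weights `w j k ≥ 0`, such that the arrangement
  is log canonical (the sum of the weights of hyperplanes with a common point is at most the
  codimension of their intersection) and `∑ k, w j k ≥ r_j + 1`. If `Q` is a place of the function
  field of `X'` over a prime divisor `P` of `X` which dominates `W_i` but not `W_{i+1}`, with
  ramification index `ε`, and `e j k` are the multiplicities of the hyperplanes at `Q`, not all zero,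
  then `ε ≤ ∑ (mx_j - ∑ w j k e j k)`, where `mx_j` is the greatest sum of `r_j + 1` of the `e j k`
  whose hyperplanes have no common point (`ε ≤ 1`, if all `e j k` are zero). Let `λ_i` be the sum of
  the `r_j` with `∑ k, w j k > r_j + 1`. The `W_i` may all be rational; for instance if `W_{i+1}` is a
  bundle of projective lines over `W_i`, then the multiplicities of the fibres of `X` over four
  sections of the bundle may be `2`, or over three sections `(3, 3, 3)`, `(2, 4, 4)` or `(2, 3, 6)`
  (at least);
* (the fibres of `X` over `W_l`) there is a correspondence `X'` as above between `X` and a relative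
  product `P^{r_1} × ... × P^{r_c}` over `W_l`, with log canonical moving hyperplane arrangements with
  weights in `[0, 1]` (with any sum) and the same condition at the prime divisors of `X` which
  dominate `W_l`; and if `Q` is a place of the function field of `X'` over a prime divisor of
  `P^{r_1} × ... × P^{r_c}` over `W_l`, with ramification index `ρ`, and with ramification index `ε`
  over `X`, then `ρ - ε ≤ ∑ w j k e j k`. Let `λ` be the sum of the `r_j` with
  `∑ k, w j k > r_j + 1`. For instance the fibres may be products of elliptic curves, or K3 surfaces
  which are double planes over six lines, with any variation, or projective spaces.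

Then `K_X` is pseudo-effective if and only if `K_X` is `ℚ`-effective, if and only if
`∑ k, w j k ≥ r_j + 1` for all `j` (for the fibres over `W_l`), and then

  `κ(X) ≥ ∑ λ_i + λ`, and `κ(X) ≥ dim W_0 + ∑ λ_i + λ` if `∑ i, v i (k i) / d i > 1`;

otherwise the Kodaira dimension and the numerical dimension are `-∞`.

The language and the definitions of `Pool.Agent.Y172` are used: `X` is given by the homogeneous
coordinates `y` of its generic point, with values in the function field `K` of `X`; the prime divisors
of `X` are places `P` of `K`, `P.ord` is the order along `P`; `kodairaDim` and `numericalDim` are the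
literal definitions of the Kodaira and of the numerical dimension by means of the dimensions of the
spaces of sections of `m K_X` and of `m K_X + A`. The dominant rational map to the product is given by
homogeneous coordinates `x i j` such that the affine coordinates `x i (j + 1) / x i 0` are
algebraically independent. `E i` is the function field of `W_i`. Definitions:
`Pool/Agent/X180/TP/Defs`, `Pool/Agent/X180/OT/Defs`.

Proof: for a step `Z' → Z` of the tower the products of determinants of logarithmic derivatives of the
linear forms are forms along the fibres of `X' → Z`, of degree `dim Z' - dim Z`; their coefficients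
with respect to a basis of the vector fields of `Z'` over `Z` are algebraic over the function field of
`Z'`, and their norms are estimated at the prime divisors of `X` (`Pool.Agent.X180.Orb`). The forms of
the steps are multiplied with adapted regular vector fields, and with the forms of the base: for an
irreducible arrangement there are weights on the bases of the matroid such that the products of the
forms `det (d log)` have no poles (`Pool.Agent.X180.Multi`). If some `∑ k, w j k < r_j + 1` the traces
of the pull backs to `X'` of the sections of `m K_X + A` vanish for large `m` (`Pool.Agent.Y191.lc_ab`).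
-/

set_option autoImplicit false

open FF Module Pool.Agent.W602.Cov Pool.Agent.W602.GT Pool.Agent.Y172 Pool.Agent.Y191
open Pool.Agent.X180.OT
open Pool.Agent.X180.TP (Bound affine BaseField Multiplicities IsCanonicalVariety Fibres big
  Nonvanishing)

namespace Pool.Agent.Results.MP_813db1_ag.OrbifoldTowersOverProducts

/-- **Nonvanishing.** Let `ℓ i` be arbitrary arrangements of hyperplanes, which are not reducible, in
projective spaces of dimensions `n i ≥ 1`, `d i` the bounds. Let `X` be a projective variety with
canonical singularities and `X ⇢ W_l ⇢ ... ⇢ W_0` an orbifold tower over the product `W_0` of the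
projective spaces, given by homogeneous coordinates `x i`, of which the steps have dimensions `e i` and
log Kodaira dimensions `lam i`, and let the fibres of `X` over `W_l` be as in `Fibres`. Suppose that at
each prime divisor of `X` over one of the hyperplanes `∑ i, v i (k i) / d i ≥ 1` for the
multiplicities `v` and some `k`. Then `κ(X) ≥ ∑ i, lam i + big ≥ 0` if `r j + 1 ≤ ∑ i, w j i` for all
`j`, and `κ(X) ≥ dim W_0 + ∑ i, lam i + big` if moreover the multiplicities satisfy
`∑ i, v i (k i) / d i > 1`; otherwise `κ(X) = ν(X) = -∞`. -/
theorem result {m : ℕ} (n q : Fin m → ℕ) (hn : ∀ i, 1 ≤ n i)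
    (ℓ : ∀ i, Fin (q i) → Form (n i)) (hℓ : ∀ i k, ℓ i k ≠ 0) (hr : ∀ i, ¬ Reducible (ℓ i))
    (d : Fin m → ℕ) (hd : ∀ i, Bound (ℓ i) (d i)) (K : Type) [Field K] [Algebra ℂ K]
    (N l : ℕ) (E : Fin (l + 1) → IntermediateField ℂ K) (D : Fin (l + 1) → ℕ) (e lam : Fin l → ℕ)
    (c : ℕ) (r s : Fin c → ℕ) (y : Fin (N + 1) → K)
    (hy : IsCanonicalVariety y (D (Fin.last l) + ∑ j, r j)) (x : ∀ i, Fin (n i + 1) → K)
    (hx0 : ∀ i, x i 0 ≠ 0) (hind : AlgebraicIndependent ℂ (affine x)) (hE0 : E 0 = BaseField x)
    (hT : IsOrbifoldTower {P | IsPrimeDivisor y P} (fun _ => 0) E D e lam)
    (hm : Multiplicities y ℓ x d fun z => 1 ≤ z)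
    (w : ∀ j, Fin (s j) → ℚ) (hF : Fibres y (E (Fin.last l)) r s w) :
    Nonvanishing y (D (Fin.last l) + ∑ j, r j) (∑ i, lam i + big r s w) r s w ∧
      (Multiplicities y ℓ x d (fun z => 1 < z) →
        Nonvanishing y (D (Fin.last l) + ∑ j, r j) (D 0 + ∑ i, lam i + big r s w) r s w) := by
  have hb := multi_base hn hℓ hr hd hy hx0 hind hE0 hT hm
  refine ⟨?_, fun hm' => non_gen hy hT hF fun lam' h0 => (hb lam' h0).2 hm'⟩
  have h1 := non_gen (k := 0) hy hT hF fun lam' h0 => by
    rw [zero_add]
    exact (hb lam' h0).1
  rwa [zero_add] at h1

end Pool.Agent.Results.MP_813db1_ag.OrbifoldTowersOverProducts
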