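import Pool.Agent.X140.EF.TDefs
import Pool.Agent.X180.Abn.Sys1

/-!
# Non-vanishing for towers of fibrations over varieties with highly ramified linear systems

Let `X` be a projective manifold and `|V|` a linear system on `X` of dimension `n` whose rational map
`X ⇢ ℙⁿ` has an image `W_0` of dimension `d`, `1 ≤ d ≤ n`; `W_0` may be any nondegenerate variety, for
instance rational. Let

  `X → W_l → ... → W_1 → W_0`, `l ≥ 0`,

be dominant rational maps. Suppose:

* (the base) `D i` (`i < q`) are members of `|V|` which span `V`, in arbitrary position, `c` is the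
  number of the components of this configuration (`V` is the direct sum of `c`, but not of `c + 1`,
  nonzero subspaces such that each `D i` belongs to one of them, the component of `D i`), and at every
  prime divisor `P` over `X` which is a component of some `D i` the multiplicities of `P` in two
  members `D i`, `D i'` of one component of the configuration differ by at least `s`, where
  `2 s ≥ (n + 3 - c) (n - d + 1) (n - d + 2)` (if `c = 1` and there are at least `n + 3` different
  members then `n + 1` can be taken instead of `n + 2`);
* (the fibres) for each of the `l + 1` maps `Y' → Y` of the tower a component `F` of the geometric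
  generic fibre, a variety over the algebraic closure `Λ` of the function field of `Y`, has a
  generically finite rational map, ramified anywhere, to a product `F₀ × Z`, where `F₀` is any variety
  over `ℂ` with `κ(F₀) ≥ 0`, and `Z` is the multiple double cover
  `w k ^ 2 = c k * ∏ i ∈ S k, f i (x i)`, `k < p`, of the product of `r` lines over `Λ`, `c k ∈ Λ` not
  zero, `f i` a separable polynomial over `Λ` of degree at least three, and every `i < r` lies in one
  of the sets `S k`: for instance a product of elliptic and hyperelliptic curves, a Kummer surface of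
  a product of two elliptic curves, or one of the Calabi–Yau varieties
  `w ^ 2 = f 1 (x 1) ⋯ f r (x r)` with cubic polynomials `f i`, with arbitrary moduli.

Then `H⁰(X, m K_X) ≠ 0` for some `m > 0`; more precisely `κ(X)` is at least the sum of the numbers
`κ(F₀) + u` of the maps of the tower, where `u` is the number of the `f i` of degree at least five. If
the inequality for `s` is strict then `κ(X)` is at least `d + 1 - c` plus this sum.

Notation: `K` is the function field of `X`, the function fields `E i` of the `W_i` are subfields of
`K`; prime divisors are places (`Place`, `Divisorial`), `P.ord` is the order along `P`.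
`KodTr k K n h`: the Kodaira dimension is at least `h`, that is, there are `h + 1` pluricanonical
forms of which the `h` ratios are algebraically independent (`Pool/Agent/W619`). The definitions
`Dominates`, `HighDegree`, `IsGeometricFibre`, `CoverFibres` and `IsTower` are in
`Pool.Agent.X140.EF.TDefs`.

Proof: the forms along the fibres of the steps are norms of products of discriminant forms and
Hessian forms of the `f i` and of pluricanonical forms of `F₀` (`Pool.Agent.X140.EF`). Their products
(`Pool.Agent.X180.Tow`) are multiplied with generalised Wronskians of `V`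
(`Pool.Agent.TH585.SV.lin_fib`).
-/

set_option autoImplicit false

open FF Pool.Agent.W619.Y Pool.Agent.X140.EF
open Pool.Agent.W602.GT (Divisorial)

namespace Pool.Agent.Results.MP_813db1_ag.TowersOfCoverFibrations

section

variable {K : Type} [Field K] [Algebra ℂ K]

/-- The function field of the image of the rational map which is given by the linear system `V`: the
field generated by the quotients of the members. -/
noncomputable def ImageField (V : Submodule ℂ K) : IntermediateField ℂ K :=
  IntermediateField.adjoin ℂ {y : K | ∃ f ∈ V, ∃ g ∈ V, y = f / g}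

/-- `γ` is a decomposition of the configuration of the members `φ i` of `V` into `c` components: `V`
has a basis of `n + 1` elements `x a`, divided into `c` nonempty groups (`x a` is in the group `g a`),
such that `φ i` is in the subspace spanned by the elements of the group `γ i`. -/
def Decomposition (n : ℕ) {q c : ℕ} (V : Submodule ℂ K) (φ : Fin q → K) (γ : Fin q → Fin c) :
    Prop :=
  ∃ (x : Fin (n + 1) → K) (g : Fin (n + 1) → Fin c), LinearIndependent ℂ x ∧
    Submodule.span ℂ (Set.range x) = V ∧ Function.Surjective g ∧
    ∀ i, φ i ∈ Submodule.span ℂ (x '' {a | g a = γ i})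

/-- There are `r` members `φ i` of which no two are proportional. -/
def Different (r : ℕ) {q : ℕ} (φ : Fin q → K) : Prop :=
  ∃ τ : Fin r → Fin q, ∀ i j, i ≠ j → ∀ t : ℂ, φ (τ i) ≠ t • φ (τ j)

/-- The condition on the multiplicities, on a variety `X` of dimension `w`: if the prime divisor `P`
over `X` is a component of one of the divisors `D i` (the order of `φ i` at `P` is not the minimum `a`
of the orders of the members of `V`), then for some members `D i`, `D i'` of the same component of
the configuration the difference of the multiplicities of `P` is at least `s`. -/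
def Multiplicities (w : ℕ) {q c : ℕ} (V : Submodule ℂ K) (φ : Fin q → K) (γ : Fin q → Fin c)
    (s : ℝ) : Prop :=
  ∀ P : Place ℂ K, Divisorial w P → ∀ a : ℤ, (∀ f ∈ V, f = 0 ∨ a ≤ P.ord f) →
    (∃ f ∈ V, f ≠ 0 ∧ P.ord f = a) → (∃ i, P.ord (φ i) ≠ a) →
    ∃ i i', γ i' = γ i ∧ s ≤ ((P.ord (φ i) - P.ord (φ i') : ℤ) : ℝ)

end

/-- **Non-vanishing.** Let `K` be the function field of a projective manifold `X` of dimension
`D l + e'`, `V` a linear system of dimension `n` on `X` whose rational map has an image `W_0` of
dimension `D 0`, `1 ≤ D 0 ≤ n`; `φ i` nonzero members which span `V`, `γ` their decomposition into `c`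
components (there is no decomposition into `c + 1` components), `R = n + 3 - c`, or `R = n + 1` if
`c = 1` and there are `n + 3` different members, and `s` a number with
`2 s ≥ R (n - D 0 + 1) (n - D 0 + 2)` for which the condition on the multiplicities holds. Let
`X → W_l → ... → W_0` be dominant maps of varieties with function fields `E i` and dimensions `D i`,
such that the fibres of `W_{i+1} → W_i`, of dimension `e i`, have a component which dominates
`F₀ i × Z i`, `κ(F₀ i) + u i ≥ k i`, and the fibres of `X → W_l`, of dimension `e'`, have a component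
which dominates `F₀' × Z'`, `κ(F₀') + u' ≥ k'`.

Then `κ(X) ≥ ∑ k i + k'`; in particular `κ(X) ≥ 0`. If `2 s > R (n - D 0 + 1) (n - D 0 + 2)` then
`κ(X) ≥ D 0 + 1 - c + ∑ k i + k'`. -/
theorem result {K : Type} [Field K] [Algebra ℂ K] (n q c l : ℕ)
    (E : Fin (l + 1) → IntermediateField ℂ K) (D : Fin (l + 1) → ℕ) (e k : Fin l → ℕ)
    (hd : 1 ≤ D 0) (hdn : D 0 ≤ n) (hT : IsTower E D e k) (e' k' : ℕ)
    (hK : Algebra.trdeg ℂ K = (D (Fin.last l) + e' : ℕ)) (hF : CoverFibres (E (Fin.last l)) e' k')
    (V : Submodule ℂ K) (hV : E 0 = ImageField V) (φ : Fin q → K) (hφ0 : ∀ i, φ i ≠ 0)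
    (hφ : Submodule.span ℂ (Set.range φ) = V) (γ : Fin q → Fin c) (hγ : Decomposition n V φ γ)
    (hc : ∀ γ' : Fin q → Fin (c + 1), ¬ Decomposition n V φ γ')
    (R : ℕ) (hR : R + c = n + 3 ∨ (c = 1 ∧ Different (n + 3) φ ∧ R = n + 1)) (s : ℝ)
    (hs : (R : ℝ) * (((n : ℝ) - D 0 + 1) * ((n : ℝ) - D 0 + 2)) ≤ 2 * s)
    (hm : Multiplicities (D (Fin.last l) + e') V φ γ s) :
    KodTr ℂ K (D (Fin.last l) + e') (∑ i, k i + k') ∧
    ((R : ℝ) * (((n : ℝ) - D 0 + 1) * ((n : ℝ) - D 0 + 2)) < 2 * s →
      ∀ κ : ℕ, κ + c = D 0 + 1 → KodTr ℂ K (D (Fin.last l) + e') (κ + (∑ i, k i + k'))) := by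
  have h1 := hT.forms rfl hK hF {P | True}
  have h2 : D (Fin.last l) + e' = D 0 + (∑ i, e i + e') := by
    rw [tower_sum l D e fun i => (hT.2 i).2.2.1, add_assoc]
  rw [h2] at h1 hK hm ⊢
  have h3 := hT.1 0
  rw [hV] at h1 h3
  have key := Pool.Agent.X180.Iso.iso_kod hd hdn hK h3 hφ0 hφ hγ hc hR hs hm h1
  exact ⟨Pool.Agent.X180.Abn.kodTr_of_kodGe key.1, fun hlt κ hκ =>
    Pool.Agent.X180.Abn.kodTr_of_kodGe (key.2 hlt κ hκ)⟩

end Pool.Agent.Results.MP_813db1_ag.TowersOfCoverFibrations
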