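import Pool.Agent.X325.OB.TowC

/-!
# Nonvanishing for towers over subvarieties of projective space

Let `X` be a projective manifold (or a projective variety with canonical singularities) and

  `X ⇢ W_l ⇢ ... ⇢ W_1 ⇢ W_0 ⊂ P^v`, `l ≥ 0`,

dominant rational maps, where `W_0` is any subvariety of `P^v`, of dimension `D 0`. Suppose:

* (the base) `ℓ i = 0`, `i < q`, are hyperplanes in general position which do not contain `W_0`,
  such that the points `ℓ i` impose independent conditions on the forms of degree `d`, with weights
  `wt i ≥ 0` whose sum is at least `(D 0 + 1) γ`, `γ = (v - D 0 + d).choose (v - D 0)`; if `μ i` are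
  the multiplicities of the hyperplanes `ℓ i = 0` at a prime divisor `P` of `X` (for the divisors
  without fixed component which the map defines), not all zero, then `min (#{i | μ i ≠ 0}) γ ≤ ∑ i,
  (1 - wt i) μ i`. In the *borderline case*, when the sum of the weights is equal to `(D 0 + 1) γ`,
  the inequality is strict if the multiplicity `μ k0` of one distinguished hyperplane is positive
  (this is needed for the second statement only). (If `W_0 = P^{D 0}` then `γ = 1`, and the
  borderline case is the one in which the orbifold base is of log Calabi-Yau type);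
* (the steps of the tower) for each `i < l` one of the following:
  * (orbifold) the fibres of `W_{i+1}` over `W_i`, *with the multiplicities of the fibres of `X`
    over `W_{i+1}`*, correspond to moving log canonical arrangements, of log Kodaira dimension `lam
    i ≥ 0` (`OrbifoldFibres`);
  * (constant) the fibres of `W_{i+1}` over `W_i`, with the multiplicities of the fibres of `X` over
    `W_{i+1}`, correspond to one orbifold `(V_i, a_i)` of Kodaira dimension at least `lam i ≥ 0`:
    there are a variety `X'` with a generically finite map `X' ⇢ X` and a rational map `X' ⇢ V_i`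
    which is constant on the fibres of `X' ⇢ W_{i+1}` and dominant on the fibres of `X' ⇢ W_i`; `a_i
    (p)` is a nonnegative function (the log discrepancy) of places of `V_i`, and at the places `Q`
    over `P` (with ramification index `ε`) which lie over `p` (with ramification index `ν`) one has
    `ε ≤ ν a_i (p)` (`ConstantFibres`). For instance `V_i` is a smooth projective variety, `a_i =
    1`, and the fibres of `W_{i+1}` over `W_i` are birational to `V_i`;
* (the fibres of `X` over `W_l`, of any Kodaira dimension) there is a correspondence `X'` between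
  `X` and a relative product `P^{r_1} × ... × P^{r_c}` over `W_l`, with log canonical moving
  hyperplane arrangements with weights in `[0, 1]`, with conditions on the multiplicities at the
  prime divisors of `X` which dominate `W_l`, and at the places over the prime divisors of the
  product (`CanonicalFibres`).

If `∑ k, w j k ≥ r_j + 1` for all `j` (for the fibres over `W_l`) then

  `κ(X) ≥ ∑ i, lam i + λ`, and `κ(X) ≥ dim W_0 + ∑ i, lam i + λ`

if the sum of the `wt i` is greater than `(D 0 + 1) γ`, or in the borderline case with the strict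
inequalities, where `λ` is the sum of the `r_j` with `∑ k, w j k > r_j + 1`; otherwise `κ(X) = ν(X)
= -∞`, i.e. `K_X` is not pseudo-effective.

So `K_X` is pseudo-effective if and only if it is `ℚ`-effective: Q1 holds for these varieties `X`.
For instance all the `W_i` may be rational: the pseudo-effectivity of `K_X` is then a consequence of
the multiplicities of the fibres of `X`.

The definitions are those of `Pool/Agent/X180/OP/CanDefs`, `X180/OD/Defs` and
`Pool/Agent/Y191/LcForm`, `LcLow`.
-/

set_option autoImplicit false

open FF Pool.Agent.W602.GT Pool.Agent.Y172 Pool.Agent.Y191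
open Pool.Agent.X180.OP (IsCanonicalVariety CanonicalFibres CanonicalNonvanishing big)
open Pool.Agent.X180.OD (IsTower)

namespace Pool.Agent.Results.MP_813db1_ag.TowersOverSubvarieties

/-- The function field of the image of the rational map with the coordinates `b j`. -/
noncomputable def ImageField {K : Type} [Field K] [Algebra ℂ K] {v : ℕ} (b : Fin (v + 1) → K) :
    IntermediateField ℂ K :=
  IntermediateField.adjoin ℂ {f : K | ∃ i j, b j ≠ 0 ∧ f = b i / b j}

/-- The `b j` are the coordinates of a rational map whose image has dimension `p` and is not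
contained in one of the hyperplanes `ℓ i = 0`. -/
def IsMap {K : Type} [Field K] [Algebra ℂ K] {v q : ℕ} (ℓ : Fin q → Fin (v + 1) → ℂ)
    (b : Fin (v + 1) → K) (p : ℕ) : Prop :=
  (∀ i, ∑ j, algebraMap ℂ K (ℓ i j) * b j ≠ 0) ∧ (∃ j, b j ≠ 0) ∧
    Algebra.trdeg ℂ (ImageField b) = p

/-- The multiplicities over the base, at the prime divisors `P` of `X`: if the hyperplanes `ℓ i = 0`
have the multiplicities `μ i` at `P`, not all zero, then `min (#{i | μ i ≠ 0}) γ ≤ ∑ i, (1 - wt i) μ
i`. -/
def Multiplicities {K : Type} [Field K] [Algebra ℂ K] {v q : ℕ} {N : ℕ} (y : Fin (N + 1) → K)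
    (ℓ : Fin q → Fin (v + 1) → ℂ) (b : Fin (v + 1) → K) (wt : Fin q → ℚ) (γ : ℕ) : Prop :=
  ∀ P, IsPrimeDivisor y P → ∀ (a : ℤ) (μ : Fin q → ℕ),
    MOrd P (fun k j => algebraMap ℂ K (ℓ k j)) b a μ → μ ≠ 0 →
    ((min (Finset.univ.filter fun i => μ i ≠ 0).card γ : ℕ) : ℚ) ≤
      ∑ i, (1 - wt i) * μ i

/-- The inequality in `Multiplicities` is strict if the multiplicity of the distinguished hyperplane
`k0` is positive. -/
def Strict {K : Type} [Field K] [Algebra ℂ K] {v q : ℕ} {N : ℕ} (y : Fin (N + 1) → K)
    (ℓ : Fin q → Fin (v + 1) → ℂ) (b : Fin (v + 1) → K) (wt : Fin q → ℚ) (γ : ℕ) (k0 : Fin q) :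
    Prop :=
  ∀ P, IsPrimeDivisor y P → ∀ (a : ℤ) (μ : Fin q → ℕ),
    MOrd P (fun k j => algebraMap ℂ K (ℓ k j)) b a μ → μ k0 ≠ 0 →
    ((min (Finset.univ.filter fun i => μ i ≠ 0).card γ : ℕ) : ℚ) <
      ∑ i, (1 - wt i) * μ i

/-- **Nonvanishing.** Let `ℓ i = 0` be hyperplanes in `P^v` in general position which impose
independent conditions on the forms of degree `d ≥ 1`. Let `X` be a projective variety with
canonical singularities and `b` the coordinates of a rational map `X ⇢ P^v` whose image is the
bottom `W_0`, of dimension `D 0`, not contained in a hyperplane `ℓ i = 0`, of a tower `X ⇢ W_l ⇢ ...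
⇢ W_0` whose steps (orbifold fibrations or constant orbifolds) have the (log) Kodaira dimensions
`lam i ≥ 0`. Let `wt i ≥ 0` be weights whose sum is at least `(D 0 + 1) * γ`, where `γ = (v - D 0 +
d).choose (v - D 0)`. Suppose that the condition `Multiplicities` holds, and let the fibres of `X`
over `W_l` be as in `CanonicalFibres`. If `r j + 1 ≤ ∑ i, w j i` for all `j` then the Kodaira
dimension of `X` is at least the sum of the `lam i` and the `r j` with `r j + 1 < ∑ i, w j i`, and
of these and `D 0` if moreover the sum of the `wt i` is greater than `(D 0 + 1) * γ`, or if the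
inequalities are strict for one distinguished hyperplane (`Strict`). Otherwise the Kodaira dimension
and the numerical dimension of `X` are `-∞`. -/
theorem result {v q d : ℕ} (hd : 0 < d) (ℓ : Fin q → Fin (v + 1) → ℂ) (hI : Independent d ℓ)
    (hg : GeneralPosition ℓ) (hq : v + 1 ≤ q)
    (K : Type) [Field K] [Algebra ℂ K] (N l c : ℕ)
    (E : Fin (l + 1) → IntermediateField ℂ K) (D : Fin (l + 1) → ℕ) (e lam : Fin l → ℕ)
    (r s : Fin c → ℕ) (y : Fin (N + 1) → K)
    (hy : IsCanonicalVariety y (D (Fin.last l) + ∑ j, r j))
    (b : Fin (v + 1) → K) (hb : IsMap ℓ b (D 0)) (hE0 : E 0 = ImageField b)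
    (wt : Fin q → ℚ) (hwt : ∀ i, 0 ≤ wt i)
    (hs : (((D 0 + 1) * (v - D 0 + d).choose (v - D 0) : ℕ) : ℚ) ≤ ∑ i, wt i)
    (hm : Multiplicities y ℓ b wt ((v - D 0 + d).choose (v - D 0)))
    (hT : IsTower {P | IsPrimeDivisor y P}
      (fun _ => 0) E D e lam)
    (w : ∀ j, Fin (s j) → ℚ) (hF : CanonicalFibres y (E (Fin.last l)) r s w) :
    CanonicalNonvanishing y (D (Fin.last l) + ∑ j, r j)
      (∑ i, lam i + big r s w) r s w ∧
    ((((D 0 + 1) * (v - D 0 + d).choose (v - D 0) : ℕ) : ℚ) < ∑ i, wt i ∨
      (∃ k0, Strict y ℓ b wt ((v - D 0 + d).choose (v - D 0)) k0) →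
      CanonicalNonvanishing y (D (Fin.last l) + ∑ j, r j)
        (D 0 + ∑ i, lam i + big r s w) r s w) := by
  have h := Pool.Agent.X325.OB.small_dcan_nv hd hI hg hq hy hb.1 hb.2.1 hE0 hwt hs
    (fun P hP a μ ho hμ => hm P hP a μ (Pool.Agent.X325.OB.mord_ord ho) hμ) hT hF
  obtain ⟨j, -⟩ := hb.2.1
  refine ⟨h.1, fun h' => ?_⟩
  rcases h' with h' | ⟨k0, h'⟩
  · exact h.2 ⟨0, by omega⟩ fun heq => absurd heq h'.ne
  · exact h.2 k0 fun _ P hP a μ ho hμ => h' P hP a μ (Pool.Agent.X325.OB.mord_ord ho) hμ

end Pool.Agent.Results.MP_813db1_ag.TowersOverSubvarieties
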